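import Pool.Agent.Helper13.EV.Defs
import Pool.Agent.Helper63.TD.SbCov
import Pool.Agent.Helper26.TD.G

/-!
# Subcomplexes and covers of typed complexes, arbitrary stabilizers
-/

set_option autoImplicit false

namespace Pool.Agent.Helper13.EV

open Relation Pool.Agent.Helper29.BA Pool.Agent.Helper29.PA Pool.Agent.Helper3.FJ
  Pool.Agent.Helper3.FJ.Cpx Pool.Agent.Helper9.TD
open Pool.Agent.Helper63.TD (ClT colim_clT exists_clT sbcov_mem al_cover)

section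

variable {S V : Type} {M : CoxeterMatrix S} {X : Cpx V} {τ : V → Finset S} {G : Type} [Group G]
  [MulAction G V] {v₀ : V}

/-- Subgroups. -/
theorem ActsT'.sub (hA : ActsT' G X τ) (T : Subgroup G) : ActsT' T X τ :=
  ⟨⟨fun g u v h => hA.acts.1 g.1 u v h, fun g u v w h => hA.acts.2 g.1 u v w h⟩,
    fun g v => hA.inv g.1 v⟩

theorem clT_nbr (hA : ActsT' G X τ) {s : Finset V} (hs : ClT X τ s) {c x : V} {g : G}
    (hc : g • c ∈ s) (h0 : τ c = ∅) (hx : X.adj c x) : g • x ∈ s :=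
  hs.1 _ hc (by rw [hA.inv, h0]) _ (hA.acts.1 g _ _ hx)

open Pool.Agent.Helper13.LT in
/-- The covers of the subcomplexes given by closed sets are typed complexes. -/
theorem cover_sb_tk' (hT : TK M X τ) (hA : ActsT' G X τ) {s : Finset V} (hs : ClT X τ s)
    (hv₀ : v₀ ∈ s) : TK M (cover (X.sb G s) v₀) (fun p => τ p.1.1) := by
  have chain : ∀ {u v w : V}, τ u ⊂ τ v → τ v ⊂ τ w → τ u = ∅ := by
    intro u v w h1 h2
    have h3 := Finset.card_lt_card h1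
    have h4 := Finset.card_lt_card h2
    have h5 := hT.two w
    exact Finset.card_eq_zero.mp (by omega)
  -- neighbours of chambers are in the subcomplex
  have sbadj : ∀ {p : Cv (X.sb G s) v₀} {x : V}, τ p.1.1 = ∅ → X.adj p.1.1 x →
      (X.sb G s).adj p.1.1 x := by
    intro p x h0 hx
    obtain ⟨g, hg⟩ := sbcov_mem hv₀ p
    exact ⟨hx, g, hg, clT_nbr hA hs hg h0 hx⟩
  have sbtri : ∀ {p : Cv (X.sb G s) v₀} {x y : V}, τ p.1.1 = ∅ → X.tri p.1.1 x y →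
      (X.sb G s).tri p.1.1 x y := by
    intro p x y h0 hxy
    obtain ⟨g, hg⟩ := sbcov_mem hv₀ p
    refine ⟨hxy, g, hg, clT_nbr hA hs hg h0 (X.tri_adj _ _ _ hxy), clT_nbr hA hs hg h0 ?_⟩
    exact X.adj_symm _ _ (X.tri_adj _ _ _ (X.tri_rot _ _ _ (X.tri_rot _ _ _ hxy)))
  refine ⟨fun v => hT.two _, fun v => hT.sph _, fun u v h => hT.sub _ _ h.1.1, ?_, ?_, ?_, ?_, ?_,
    ?_⟩
  · intro v hv
    obtain ⟨g, hg⟩ := sbcov_mem hv₀ v
    obtain ⟨c, hc, hc0, hcv⟩ := hs.2 _ hg (by rw [hA.inv]; exact hv)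
    have h1 : X.adj (g⁻¹ • c) v.1.1 := by
      have := hA.acts.1 g⁻¹ _ _ hcv
      rwa [inv_smul_smul] at this
    have h2 : (X.sb G s).adj v.1.1 (g⁻¹ • c) :=
      ⟨X.adj_symm _ _ h1, g, hg, by rw [smul_inv_smul]; exact hc⟩
    obtain ⟨q, hq, hvq⟩ := exists_adj v h2
    refine ⟨q, ?_, (cover _ v₀).adj_symm _ _ hvq⟩
    rw [hq, hA.inv, hc0]
  · intro c J hc hJ hJ2 hJM
    obtain ⟨x, hx, hxJ⟩ := hT.up c.1.1 J hc hJ hJ2 hJM
    obtain ⟨q, hq, hcq⟩ := exists_adj c (sbadj hc hx)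
    refine ⟨q, hcq, ?_⟩
    rw [hq, hxJ]
  · intro u v v' h1 h2 h3 h4
    exact adj_eq h1 h2 (hT.un _ _ _ h1.1.1 h2.1.1 h3 h4)
  · intro u v w h1 h2 h3 h4
    have h5 : τ u.1.1 = ∅ := chain h3 h4
    have h6 := hT.tri _ _ _ h1.1.1 h2.1.1 h3 h4
    exact ⟨sbtri h5 h6, h1.2, h2.2⟩
  · intro c p r hc h1 h2 h3
    exact (adj_of_tri (sbtri hc (hT.flag _ _ _ hc h1.1.1 h2.1.1 h3)) h1 h2).1
  · intro a b n c hab hn h
    exact hT.gir a b n _ hab hn (al_cover (X := X) (Y := X.sb G s) (fun _ _ h => h.1) h)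

/-- The action on the cover of a subcomplex. -/
theorem sbcov_actsT' (hA : ActsT' G X τ) (s : Finset V) :
    ActsT' (GG (sb_acts hA.acts s) v₀) (cover (X.sb G s) v₀) (fun p => τ p.1.1) :=
  ⟨cover_acts _, fun g v => hA.inv g.1.right v.1.1⟩

theorem lg_smul' (hA : ActsT' G X τ) (g : G) (u v : V) :
    Pool.Agent.Helper26.TD.lg M τ (g • u) (g • v) = Pool.Agent.Helper26.TD.lg M τ u v := by
  unfold Pool.Agent.Helper26.TD.lg
  rw [hA.inv, hA.inv]

/-- Groups which act with finite stabilizers. -/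
theorem properT' (hT : TK M X τ) {C : ∀ (G : Type) [Group G], Prop} (hC : CatClass C)
    (hM : TwoDim M) (hX : X.SimplyConn) (hA : ActsT' G X τ)
    (hst : ∀ v : V, Finite (MulAction.stabilizer G v)) : C G :=
  Cpx.proper hC hX (Pool.Agent.Helper26.TD.metric hT) (Pool.Agent.Helper26.TD.linkCond hT hM)
    hA.acts (lg_smul' hA) hst

end

end Pool.Agent.Helper13.EV
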