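import Pool.Agent.Helper9.TD.Typ

/-!
# Actions on typed complexes with arbitrary stabilizers
-/

set_option autoImplicit false

namespace Pool.Agent.Helper13.EV

open Pool.Agent.Helper3.FJ Pool.Agent.Helper9.TD

/-- Actions on typed complexes which preserve the types. -/
structure ActsT' {S V : Type} (G : Type) [Group G] [MulAction G V] (X : Cpx V)
    (τ : V → Finset S) : Prop where
  acts : X.Acts G
  inv : ∀ (g : G) v, τ (g • v) = τ v

end Pool.Agent.Helper13.EV
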