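import Pool.Agent.Helper3.EV.Gen
import Pool.Agent.Helper13.EV.Cov
import Pool.Agent.Helper9.EV.Defs
import Pool.Agent.Helper3.LT.Fin
import Pool.Agent.Helper3.FJ.Fin3
import Pool.Agent.Helper26.TD.G
import Pool.Agent.Helper63.TD.SbCov

/-!
# Cocompact actions on typed complexes with infinite cyclic stabilizers
-/

set_option autoImplicit false

namespace Pool.Agent.Helper13.EV

open Relation Pool.Agent.Helper29.BA Pool.Agent.Helper29.PA Pool.Agent.Helper3.FJ
  Pool.Agent.Helper3.FJ.Cpx Pool.Agent.Helper9.TD Pool.Agent.Helper3.EV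

section

variable {S V : Type} {M : CoxeterMatrix S} {X : Cpx V} {τ : V → Finset S} {G : Type} [Group G]
  [MulAction G V]

/-- The quotient group acts on the quotient. -/
theorem quoT_acts' (hA : ActsT' G X τ) (hT : TK M X τ) (R : Subgroup G) [R.Normal] :
    ActsT' (G ⧸ R) (quoT' (hA.sub R) hT) (tq' (hA.sub R)) := by
  refine ⟨⟨fun p u v huv => ?_, fun p u v w huv => ?_⟩, fun p u => ?_⟩
  · obtain ⟨g, rfl⟩ := QuotientGroup.mk_surjective p
    obtain ⟨x, y, h, rfl, rfl⟩ := huv
    exact ⟨g • x, g • y, hA.acts.1 g _ _ h, rfl, rfl⟩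
  · obtain ⟨g, rfl⟩ := QuotientGroup.mk_surjective p
    obtain ⟨x, y, z, h, rfl, rfl, rfl⟩ := huv
    exact ⟨g • x, g • y, g • z, hA.acts.2 g _ _ _ h, rfl, rfl, rfl⟩
  · obtain ⟨g, rfl⟩ := QuotientGroup.mk_surjective p
    obtain ⟨x, rfl⟩ := Quotient.exists_rep u
    exact hA.inv g x

/-- Cocompact actions with a homomorphism to the integers which is injective on the
stabilizers. -/
theorem int_memT' {C : ∀ (G : Type) [Group G], Prop} (hE : ExtClass C) (hC : CatClass C)
    [Finite S] (h2 : TwoDim M) (hT : TK M X τ) (hX : X.SimplyConn) (hA : ActsT' G X τ)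
    (hco : X.Cocompact G) (f : G →* Multiplicative ℤ)
    (hf : ∀ (v : V) (g : G), g • v = v → f g = 1 → g = 1) : C G := by
  obtain ⟨N, hNb⟩ : ∃ N : ℕ, ∀ s t, 4 * M s t ≤ N := by
    have : Fintype S := Fintype.ofFinite S
    refine ⟨(Finset.univ : Finset (S × S)).sup fun p => 4 * M p.1 p.2, fun s t => ?_⟩
    exact Finset.le_sup (f := fun p : S × S => 4 * M p.1 p.2) (Finset.mem_univ (s, t))
  obtain ⟨κ₁, hκ₁, hdiv⟩ := exists_dvd hco f hf
  obtain ⟨B, hB⟩ := Pool.Agent.Helper3.LT.exists_boundN hA.acts hco f N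
  have hf' : ∀ (v : V) (g : G), g • v = v → vl f g = 0 → g = 1 := fun v g h1 h2 =>
    hf v g h1 ((vl_eq_zero f).1 h2)
  obtain ⟨n, hn⟩ : ∃ n : ℕ, n = κ₁.natAbs * (B + 1) := ⟨_, rfl⟩
  have hn0 : n ≠ 0 := by
    rw [hn]
    exact Nat.mul_ne_zero (Int.natAbs_ne_zero.2 hκ₁) (Nat.succ_ne_zero _)
  have hκn : κ₁ ∣ (n : ℤ) := by
    rw [hn, Nat.cast_mul, Int.natCast_natAbs]
    exact (dvd_abs _ _).2 dvd_rfl |>.mul_right _
  have hMn : B < n := by
    rw [hn]
    have : 1 ≤ κ₁.natAbs := Nat.one_le_iff_ne_zero.2 (Int.natAbs_ne_zero.2 hκ₁)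
    nlinarith
  have hfi := dv_finiteIndex f n hn0
  refine hC.finiteIndex G (dv f n) hfi ?_
  obtain ⟨H, hH⟩ : ∃ H : Subgroup G, H = dv f n := ⟨_, rfl⟩
  rw [← hH] at hfi ⊢
  have hmem : ∀ g : H, (n : ℤ) ∣ vl f g.1 := fun g => mem_dv.1 (hH ▸ g.2)
  have hA' : ActsT' H X τ := hA.sub H
  -- the subgroup `R`
  have hN : NiceT' M X τ N (RR0 V H) := by
    refine ⟨hA'.sub _, hT, hNb, ?_, ?_⟩
    · rintro x y hxy ⟨s, hs1, hs2, hs3⟩ r hr
      obtain ⟨t, ht1, ht2, ht3, ht4⟩ := hdiv x y hxy ⟨s.1.1, fun h => hs1 (Subtype.ext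
        (Subtype.ext h)), hs2, hs3⟩
      obtain ⟨m, hm⟩ := (ht4.trans hκn).trans (hmem r.1)
      have h1 : (t ^ m)⁻¹ * r.1.1 = 1 := by
        refine hf' x _ ?_ ?_
        · have h2 : (t ^ m) • x = x := by
            have : t ∈ MulAction.stabilizer G x := ht1
            exact zpow_mem this m
          rw [mul_smul, inv_smul_eq_iff, h2]
          exact hr
        · rw [vl_mul, vl_inv, vl_zpow, hm]
          ring
      have h2 : r.1.1 = t ^ m := (inv_mul_eq_one.1 h1).symm
      have h3 : t ∈ MulAction.stabilizer G y := ht2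
      change r.1.1 • y = y
      rw [h2]
      exact zpow_mem h3 m
    · intro v r hr _ j hj y h1 h2 h3
      have h4 : ∀ i ≤ j, ¬ Fx G v (y i) := by
        rintro i hi ⟨t, ht1, ht2, ht3⟩
        have h5 : t ^ n ∈ H := by
          rw [hH, mem_dv, ← zpow_natCast, vl_zpow]
          exact dvd_mul_right _ _
        have h6 : (⟨t ^ n, h5⟩ : H) • v = v := by
          have : t ∈ MulAction.stabilizer G v := ht2
          exact pow_mem this n
        refine h2 i hi ⟨⟨⟨t ^ n, h5⟩, mem_RR0 _ v h6⟩, fun h7 => ht1 ?_, h6, ?_⟩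
        · have h8 : t ^ n = 1 := congrArg (fun z : RR0 V H => z.1.1) h7
          have h9 := congrArg (vl f) h8
          rw [← zpow_natCast, vl_zpow, vl_one] at h9
          refine hf' v t ht2 ?_
          rcases mul_eq_zero.1 h9 with h10 | h10
          · exact (hn0 (by exact_mod_cast h10)).elim
          · exact h10
        · have : t ∈ MulAction.stabilizer G (y i) := ht3
          exact pow_mem this n
      have h5 := hB v r.1.1 hr j hj y h1 h4 h3
      have h6 : vl f r.1.1 = 0 := by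
        refine Int.eq_zero_of_abs_lt_dvd (hmem r.1) ?_
        rw [Int.abs_eq_natAbs]
        exact_mod_cast h5.trans_lt hMn
      exact Subtype.ext (Subtype.ext (hf' v _ hr h6))
  have hR : C (RR0 V H) := gen_memT' hN h2 hE hX (RR0_gen V H)
    ((f.comp H.subtype).comp (RR0 V H).subtype) hC.int (fun v r h1 h2 =>
      Subtype.ext (Subtype.ext (hf v _ h1 h2)))
  have hP : C (H ⧸ RR0 V H) := by
    refine properT' (quoT_tk' hN.toActsT' hN.tk (gir_quo' hN)) hC h2
      (quoT_simplyConn' hN.toActsT' hN.tk hX (RR0_gen V H)) (quoT_acts' hA' hT (RR0 V H)) fun v => ?_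
    have hRR : ∀ (h : H) (x : V), h • x = x → h ∈ RR0 V H := fun h x hx => mem_RR0 h x hx
    have : Subsingleton (MulAction.stabilizer (H ⧸ RR0 V H) v) :=
      ⟨fun a b => Subtype.ext ((quo_free hRR a.1 v a.2).trans (quo_free hRR b.1 v b.2).symm)⟩
    infer_instance
  let p : H →* H ⧸ RR0 V H := QuotientGroup.mk' (RR0 V H)
  have hp : ∀ h : H, p h = 1 ↔ h ∈ RR0 V H := fun h => QuotientGroup.eq_one_iff h
  refine hE.ext H ((H ⧸ RR0 V H) × Multiplicative ℤ) (p.prod (f.comp H.subtype))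
    (hC.prod _ _ hP hC.int) ?_
  rintro ⟨p₀, n₀⟩
  by_cases hfin : IsOfFinOrder p₀
  · -- the preimage has a subgroup of finite index in `R`
    obtain ⟨D, hD⟩ : ∃ D : Subgroup H, D = (Subgroup.zpowers (p₀, n₀)).comap
      (p.prod (f.comp H.subtype)) := ⟨_, rfl⟩
    rw [← hD]
    have hD' : ∀ d ∈ D, (p.prod (f.comp H.subtype)) d ∈ Subgroup.zpowers (p₀, n₀) :=
      fun d hd => by
        rw [hD] at hd
        exact hd
    have hfr : Finite (p.comp D.subtype).range := by
      have h1 : (p.comp D.subtype).range ≤ Subgroup.zpowers p₀ := by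
        rintro _ ⟨d, rfl⟩
        obtain ⟨m, hm⟩ := hD' d.1 d.2
        exact ⟨m, congrArg Prod.fst hm⟩
      have h2 : Finite (Subgroup.zpowers p₀) := finite_zpowers.2 hfin
      exact Finite.of_injective _ (Subgroup.inclusion_injective h1)
    refine hC.finiteIndex D (p.comp D.subtype).ker (Subgroup.finiteIndex_ker _) ?_
    refine hC.inj (H := RR0 V H)
      { toFun := fun d => ⟨d.1.1, (hp _).1 d.2⟩
        map_one' := rfl
        map_mul' := fun _ _ => rfl } ?_ hR
    intro a b hab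
    exact Subtype.ext (Subtype.ext (congrArg (fun z : RR0 V H => z.1) hab))
  · -- the preimage acts freely
    refine properT' hT hC h2 hX (hA'.sub _) fun v => ?_
    have key : ∀ d : ((Subgroup.zpowers (p₀, n₀)).comap (p.prod (f.comp H.subtype))),
        d • v = v → d = 1 := by
      intro d hd
      obtain ⟨m, hm⟩ := d.2
      have h1 : p₀ ^ m = p d.1 := congrArg Prod.fst hm
      have h2 : n₀ ^ m = f d.1.1 := congrArg Prod.snd hm
      have h3 : p d.1 = 1 := (hp _).2 (mem_RR0 d.1 v hd)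
      rw [h3] at h1
      have h4 : m = 0 := by
        by_contra h5
        exact hfin (isOfFinOrder_iff_zpow_eq_one.2 ⟨m, h5, h1⟩)
      rw [h4, zpow_zero] at h2
      exact Subtype.ext (Subtype.ext (hf v _ hd h2.symm))
    have : Subsingleton (MulAction.stabilizer
        ((Subgroup.zpowers (p₀, n₀)).comap (p.prod (f.comp H.subtype))) v) :=
      ⟨fun a b => Subtype.ext ((key a.1 a.2).trans (key b.1 b.2).symm)⟩
    infer_instance

end

end Pool.Agent.Helper13.EV
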